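import Mathlib

namespace Pool.Agent.MP_737f38_pr

open Finset

variable {ι : Type*} [DecidableEq ι]

/-- Coefficient of `E ^ j Z ^ k` in `∏ (y i + x i Z + ξ i E)`. -/
noncomputable def cf (x y ξ : ι → ℝ) (s : Finset ι) (j k : ℤ) : ℝ :=
  (∏ i ∈ s, (AddMonoidAlgebra.single ((0, 0) : ℤ × ℤ) (y i)
    + AddMonoidAlgebra.single ((0, 1) : ℤ × ℤ) (x i)
    + AddMonoidAlgebra.single ((1, 0) : ℤ × ℤ) (ξ i) : AddMonoidAlgebra ℝ (ℤ × ℤ))).coeff (j, k)

omit [DecidableEq ι] in
lemma cf_empty (x y ξ : ι → ℝ) (j k : ℤ) :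
    cf x y ξ ∅ j k = if j = 0 ∧ k = 0 then 1 else 0 := by
  simp only [cf, prod_empty, AddMonoidAlgebra.one_def, AddMonoidAlgebra.coeff_single,
    Finsupp.single_apply]
  congr 1
  simp [Prod.ext_iff, eq_comm]

lemma cf_insert (x y ξ : ι → ℝ) {s : Finset ι} {a : ι} (ha : a ∉ s) (j k : ℤ) :
    cf x y ξ (insert a s) j k =
      y a * cf x y ξ s j k + x a * cf x y ξ s j (k - 1) + ξ a * cf x y ξ s (j - 1) k := by
  simp only [cf, prod_insert ha, add_mul, AddMonoidAlgebra.coeff_add, Finsupp.add_apply,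
    AddMonoidAlgebra.coeff_single_mul_apply]
  simp [sub_eq_neg_add]

lemma cf_erase (x y ξ : ι → ℝ) {s : Finset ι} {a : ι} (ha : a ∈ s) (j k : ℤ) :
    cf x y ξ s j k = y a * cf x y ξ (s.erase a) j k + x a * cf x y ξ (s.erase a) j (k - 1)
      + ξ a * cf x y ξ (s.erase a) (j - 1) k := by
  conv_lhs => rw [← insert_erase ha]
  exact cf_insert x y ξ (notMem_erase a s) j k

lemma cf_neg_left (x y ξ : ι → ℝ) (s : Finset ι) : ∀ j k : ℤ, j < 0 → cf x y ξ s j k = 0 := by
  induction s using Finset.induction_on with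
  | empty => intro j k h; rw [cf_empty, if_neg (by omega)]
  | insert a s ha ih =>
    intro j k h
    rw [cf_insert x y ξ ha, ih j k h, ih j (k - 1) h, ih (j - 1) k (by omega)]; ring

lemma cf_neg_right (x y ξ : ι → ℝ) (s : Finset ι) : ∀ j k : ℤ, k < 0 → cf x y ξ s j k = 0 := by
  induction s using Finset.induction_on with
  | empty => intro j k h; rw [cf_empty, if_neg (by omega)]
  | insert a s ha ih =>
    intro j k h
    rw [cf_insert x y ξ ha, ih j k h, ih j (k - 1) (by omega), ih (j - 1) k h]; ring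

lemma cf_big (x y ξ : ι → ℝ) (s : Finset ι) :
    ∀ j k : ℤ, (s.card : ℤ) < j + k → cf x y ξ s j k = 0 := by
  induction s using Finset.induction_on with
  | empty => intro j k h; rw [cf_empty, if_neg (by simp at h; omega)]
  | insert a s ha ih =>
    intro j k h
    rw [card_insert_of_notMem ha] at h
    push_cast at h
    rw [cf_insert x y ξ ha, ih j k (by omega), ih j (k - 1) (by omega), ih (j - 1) k (by omega)]
    ring

lemma cf_zero_indep (x y ξ ξ' : ι → ℝ) (s : Finset ι) :
    ∀ k : ℤ, cf x y ξ s 0 k = cf x y ξ' s 0 k := by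
  induction s using Finset.induction_on with
  | empty => intro k; rw [cf_empty, cf_empty]
  | insert a s ha ih =>
    intro k
    rw [cf_insert x y ξ ha, cf_insert x y ξ' ha, ih k, ih (k - 1),
      cf_neg_left x y ξ s (0 - 1) k (by omega), cf_neg_left x y ξ' s (0 - 1) k (by omega)]
    ring

lemma cf_zero_nonneg {x y : ι → ℝ} (ξ : ι → ℝ) (hx : ∀ i, 0 ≤ x i) (hy : ∀ i, 0 ≤ y i)
    (s : Finset ι) : ∀ k : ℤ, 0 ≤ cf x y ξ s 0 k := by
  induction s using Finset.induction_on with
  | empty => intro k; rw [cf_empty]; split_ifs <;> norm_num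
  | insert a s ha ih =>
    intro k
    rw [cf_insert x y ξ ha, cf_neg_left x y ξ s (0 - 1) k (by omega)]
    have := mul_nonneg (hy a) (ih k)
    have := mul_nonneg (hx a) (ih (k - 1))
    linarith

lemma cf_zero_pos {x y : ι → ℝ} (ξ : ι → ℝ) (hx : ∀ i, 0 < x i) (hy : ∀ i, 0 < y i)
    (s : Finset ι) : ∀ k : ℤ, 0 ≤ k → k ≤ s.card → 0 < cf x y ξ s 0 k := by
  induction s using Finset.induction_on with
  | empty =>
    intro k h1 h2
    rw [cf_empty, if_pos (by simp at h2; omega)]; norm_num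
  | insert a s ha ih =>
    intro k h1 h2
    rw [card_insert_of_notMem ha] at h2
    push_cast at h2
    rw [cf_insert x y ξ ha, cf_neg_left x y ξ s (0 - 1) k (by omega)]
    have n1 := mul_nonneg (hy a).le
      (cf_zero_nonneg ξ (fun i => (hx i).le) (fun i => (hy i).le) s k)
    have n2 := mul_nonneg (hx a).le
      (cf_zero_nonneg ξ (fun i => (hx i).le) (fun i => (hy i).le) s (k - 1))
    by_cases h : k ≤ s.card
    · have := mul_pos (hy a) (ih k h1 h); linarith
    · have := mul_pos (hx a) (ih (k - 1) (by omega) (by omega)); linarith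

lemma euler_k (x y ξ : ι → ℝ) (s : Finset ι) : ∀ j k : ℤ,
    (k : ℝ) * cf x y ξ s j k = ∑ i ∈ s, x i * cf x y ξ (s.erase i) j (k - 1) := by
  induction s using Finset.induction_on with
  | empty =>
    intro j k; rw [cf_empty]
    split_ifs with h
    · simp [h.2]
    · simp
  | insert a s ha ih =>
    intro j k
    rw [sum_insert ha, erase_insert ha, cf_insert x y ξ ha]
    have e : ∀ i ∈ s, x i * cf x y ξ ((insert a s).erase i) j (k - 1) =
        y a * (x i * cf x y ξ (s.erase i) j (k - 1))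
        + x a * (x i * cf x y ξ (s.erase i) j (k - 1 - 1))
        + ξ a * (x i * cf x y ξ (s.erase i) (j - 1) (k - 1)) := by
      intro i hi
      have hne : a ≠ i := fun h => ha (h ▸ hi)
      rw [erase_insert_of_ne hne, cf_insert x y ξ (fun h => ha (mem_of_mem_erase h))]
      ring
    rw [sum_congr rfl e, sum_add_distrib, sum_add_distrib, ← mul_sum, ← mul_sum, ← mul_sum,
      ← ih j k, ← ih j (k - 1), ← ih (j - 1) k]
    push_cast; ring

lemma euler_j (x y ξ : ι → ℝ) (s : Finset ι) : ∀ j k : ℤ,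
    (j : ℝ) * cf x y ξ s j k = ∑ i ∈ s, ξ i * cf x y ξ (s.erase i) (j - 1) k := by
  induction s using Finset.induction_on with
  | empty =>
    intro j k; rw [cf_empty]
    split_ifs with h
    · simp [h.1]
    · simp
  | insert a s ha ih =>
    intro j k
    rw [sum_insert ha, erase_insert ha, cf_insert x y ξ ha]
    have e : ∀ i ∈ s, ξ i * cf x y ξ ((insert a s).erase i) (j - 1) k =
        y a * (ξ i * cf x y ξ (s.erase i) (j - 1) k)
        + x a * (ξ i * cf x y ξ (s.erase i) (j - 1) (k - 1))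
        + ξ a * (ξ i * cf x y ξ (s.erase i) (j - 1 - 1) k) := by
      intro i hi
      have hne : a ≠ i := fun h => ha (h ▸ hi)
      rw [erase_insert_of_ne hne, cf_insert x y ξ (fun h => ha (mem_of_mem_erase h))]
      ring
    rw [sum_congr rfl e, sum_add_distrib, sum_add_distrib, ← mul_sum, ← mul_sum, ← mul_sum,
      ← ih j k, ← ih j (k - 1), ← ih (j - 1) k]
    push_cast; ring

/-- Half of the numerator of the second derivative of a quotient of two jets. -/
def QQ (n0 n1 n2 a0 a1 a2 : ℝ) : ℝ := n2 * a0 ^ 2 - n1 * a1 * a0 - n0 * a2 * a0 + n0 * a1 ^ 2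

/-- Marcus and Lopes: the quotient of consecutive coefficients is concave. -/
lemma marcus_lopes {x y : ι → ℝ} (ξ : ι → ℝ) (hx : ∀ i, 0 < x i) (hy : ∀ i, 0 < y i) :
    ∀ (m : ℕ) (s : Finset ι), m + 1 ≤ s.card →
      QQ (cf x y ξ s 0 (m + 1)) (cf x y ξ s 1 m) (cf x y ξ s 2 (m - 1))
        (cf x y ξ s 0 m) (cf x y ξ s 1 (m - 1)) (cf x y ξ s 2 (m - 2)) ≤ 0 := by
  intro m
  induction m with
  | zero =>
    intro s _
    rw [cf_neg_right x y ξ s 2 (((0 : ℕ) : ℤ) - 1) (by omega),
      cf_neg_right x y ξ s 1 (((0 : ℕ) : ℤ) - 1) (by omega),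
      cf_neg_right x y ξ s 2 (((0 : ℕ) : ℤ) - 2) (by omega)]
    simp [QQ]
  | succ m ih =>
    intro s hs
    push_cast
    have k0 := euler_k x y ξ s 0 (m + 1 + 1)
    have k1 := euler_k x y ξ s 1 (m + 1)
    have k2 := euler_k x y ξ s 2 m
    have j1 := euler_j x y ξ s 1 (m + 1)
    have j2 := euler_j x y ξ s 2 m
    have z1 : (m : ℤ) + 1 + 1 - 1 = m + 1 := by ring
    have z2 : (m : ℤ) + 1 - 1 = m := by ring
    have z3 : (m : ℤ) + 1 - 2 = m - 1 := by ring
    have z4 : (1 : ℤ) - 1 = 0 := by ring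
    have z5 : (2 : ℤ) - 1 = 1 := by ring
    have z6 : (m : ℤ) - 1 - 1 = m - 2 := by ring
    rw [z1] at k0
    rw [z2] at k1
    rw [z4] at j1
    rw [z5] at j2
    rw [z2, z3]
    push_cast at k0 k1 k2 j1 j2
    have hsum : ((m : ℝ) + 1 + 1) * QQ (cf x y ξ s 0 (m + 1 + 1)) (cf x y ξ s 1 (m + 1))
        (cf x y ξ s 2 m) (cf x y ξ s 0 (m + 1)) (cf x y ξ s 1 m) (cf x y ξ s 2 (m - 1))
        = ∑ i ∈ s, QQ (x i * cf x y ξ (s.erase i) 0 (m + 1))
          (x i * cf x y ξ (s.erase i) 1 m + ξ i * cf x y ξ (s.erase i) 0 (m + 1))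
          (x i * cf x y ξ (s.erase i) 2 (m - 1) + ξ i * cf x y ξ (s.erase i) 1 m)
          (cf x y ξ s 0 (m + 1)) (cf x y ξ s 1 m) (cf x y ξ s 2 (m - 1)) := by
      simp only [QQ, sum_add_distrib, sum_sub_distrib, ← sum_mul]
      rw [← k0, ← k1, ← k2, ← j1, ← j2]
      ring
    have hterm : ∀ i ∈ s, QQ (x i * cf x y ξ (s.erase i) 0 (m + 1))
          (x i * cf x y ξ (s.erase i) 1 m + ξ i * cf x y ξ (s.erase i) 0 (m + 1))
          (x i * cf x y ξ (s.erase i) 2 (m - 1) + ξ i * cf x y ξ (s.erase i) 1 m)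
          (cf x y ξ s 0 (m + 1)) (cf x y ξ s 1 m) (cf x y ξ s 2 (m - 1)) ≤ 0 := by
      intro i hi
      have hc : m + 1 ≤ (s.erase i).card := by rw [card_erase_of_mem hi]; omega
      have hprev := ih (s.erase i) hc
      have hB : 0 < cf x y ξ (s.erase i) 0 m :=
        cf_zero_pos ξ hx hy _ _ (by omega) (by omega)
      have ha0 : 0 < cf x y ξ s 0 (m + 1) := cf_zero_pos ξ hx hy _ _ (by omega) (by omega)
      have r0 := cf_erase x y ξ hi 0 (m + 1)
      have r1 := cf_erase x y ξ hi 1 m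
      have r2 := cf_erase x y ξ hi 2 (m - 1)
      rw [cf_neg_left x y ξ _ (0 - 1) _ (by omega), z2] at r0
      rw [z4] at r1
      rw [z5, z6] at r2
      generalize cf x y ξ (s.erase i) 0 (m + 1) = A0 at *
      generalize cf x y ξ (s.erase i) 1 m = A1 at *
      generalize cf x y ξ (s.erase i) 2 (m - 1) = A2 at *
      generalize cf x y ξ (s.erase i) 0 m = B0 at *
      generalize cf x y ξ (s.erase i) 1 (m - 1) = B1 at *
      generalize cf x y ξ (s.erase i) 2 (m - 2) = B2 at *
      generalize cf x y ξ s 0 (m + 1) = a0 at *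
      generalize cf x y ξ s 1 m = a1 at *
      generalize cf x y ξ s 2 (m - 1) = a2 at *
      have e : B0 * QQ (x i * A0) (x i * A1 + ξ i * A0) (x i * A2 + ξ i * A1) a0 a1 a2
          = x i ^ 2 * a0 * QQ A0 A1 A2 B0 B1 B2
            - y i * (ξ i * A0 * B0 - x i * (A1 * B0 - A0 * B1)) ^ 2 := by
        rw [r0, r1, r2]; unfold QQ; ring
      have h1 : x i ^ 2 * a0 * QQ A0 A1 A2 B0 B1 B2 ≤ 0 :=
        mul_nonpos_of_nonneg_of_nonpos (by positivity) hprev
      have h2 : 0 ≤ y i * (ξ i * A0 * B0 - x i * (A1 * B0 - A0 * B1)) ^ 2 :=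
        mul_nonneg (hy i).le (sq_nonneg _)
      by_contra hneg
      push Not at hneg
      have := mul_pos hB hneg
      linarith
    have h3 := sum_nonpos hterm
    rw [← hsum] at h3
    by_contra hneg
    push Not at hneg
    have : (0 : ℝ) < (m : ℝ) + 1 + 1 := by positivity
    have := mul_pos this hneg
    linarith

lemma log_concave {x y : ι → ℝ} (ξ : ι → ℝ) (hx : ∀ i, 0 < x i) (hy : ∀ i, 0 < y i)
    (s : Finset ι) : ∀ m : ℕ, m ≤ s.card →
      2 * cf x y ξ s 0 m * cf x y ξ s 2 (m - 2) ≤ cf x y ξ s 1 (m - 1) ^ 2 := by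
  intro m
  induction m with
  | zero =>
    intro _
    rw [cf_neg_right x y ξ s 2 (((0 : ℕ) : ℤ) - 2) (by omega)]
    simp only [mul_zero]; positivity
  | succ m ih =>
    intro hs
    have h1 := ih (by omega)
    have h2 := marcus_lopes ξ hx hy m s hs
    have z2 : (m : ℤ) + 1 - 1 = m := by ring
    have z3 : (m : ℤ) + 1 - 2 = m - 1 := by ring
    push_cast
    rw [z2, z3]
    have ha' : 0 < cf x y ξ s 0 m := cf_zero_pos ξ hx hy _ _ (by omega) (by omega)
    have ha : 0 < cf x y ξ s 0 (m + 1) := cf_zero_pos ξ hx hy _ _ (by omega) (by omega)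
    generalize cf x y ξ s 0 (m + 1) = a at *
    generalize cf x y ξ s 1 m = b at *
    generalize cf x y ξ s 2 (m - 1) = c at *
    generalize cf x y ξ s 0 m = a' at *
    generalize cf x y ξ s 1 (m - 1) = b' at *
    generalize cf x y ξ s 2 (m - 2) = c' at *
    have e : (2 * a * c - b ^ 2) * a' ^ 2 = (2 * a' * c' - b' ^ 2) * a ^ 2
        + 2 * QQ a b c a' b' c' * a - (b * a' - a * b') ^ 2 := by unfold QQ; ring
    have h3 : (2 * a' * c' - b' ^ 2) * a ^ 2 ≤ 0 :=
      mul_nonpos_of_nonpos_of_nonneg (by linarith) (by positivity)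
    have h4 : 2 * QQ a b c a' b' c' * a ≤ 0 :=
      mul_nonpos_of_nonpos_of_nonneg (by linarith) ha.le
    have h5 := sq_nonneg (b * a' - a * b')
    by_contra hneg
    push Not at hneg
    have := mul_pos (sub_pos.2 hneg) (pow_pos ha' 2)
    linarith

lemma cf_shift_one (x y d : ι → ℝ) (l : ℝ) (s : Finset ι) : ∀ k : ℤ,
    cf x y (fun i => d i + l * y i) s 1 k
      = cf x y d s 1 k + l * ((s.card : ℝ) - k) * cf x y d s 0 k := by
  induction s using Finset.induction_on with
  | empty =>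
    intro k
    simp only [cf_empty]
    by_cases h : k = 0 <;> simp [h]
  | insert a s ha ih =>
    intro k
    have z4 : (1 : ℤ) - 1 = 0 := by ring
    rw [cf_insert x y _ ha, cf_insert x y d ha, cf_insert x y d ha, ih k, ih (k - 1), z4,
      cf_zero_indep x y (fun i => d i + l * y i) d, card_insert_of_notMem ha,
      cf_neg_left x y d s (0 - 1) k (by omega)]
    push_cast; ring

lemma cf_shift_two (x y d : ι → ℝ) (l : ℝ) (s : Finset ι) : ∀ k : ℤ,
    cf x y (fun i => d i + l * y i) s 2 k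
      = cf x y d s 2 k + l * ((s.card : ℝ) - k - 1) * cf x y d s 1 k
        + l ^ 2 * (((s.card : ℝ) - k) * ((s.card : ℝ) - k - 1) / 2) * cf x y d s 0 k := by
  induction s using Finset.induction_on with
  | empty =>
    intro k
    simp only [cf_empty]
    by_cases h : k = 0 <;> simp [h]
  | insert a s ha ih =>
    intro k
    have z4 : (1 : ℤ) - 1 = 0 := by ring
    have z5 : (2 : ℤ) - 1 = 1 := by ring
    rw [cf_insert x y _ ha, cf_insert x y d ha, cf_insert x y d ha, cf_insert x y d ha, ih k,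
      ih (k - 1), z4, z5, cf_shift_one, card_insert_of_notMem ha,
      cf_neg_left x y d s (0 - 1) k (by omega)]
    push_cast; ring

lemma key_family {x y : ι → ℝ} (d : ι → ℝ) (hx : ∀ i, 0 < x i) (hy : ∀ i, 0 < y i)
    (s : Finset ι) (k : ℕ) (hk : k + 2 ≤ s.card) (l : ℝ) :
    2 * cf x y d s 0 (k + 2) * (cf x y d s 2 k + l * ((s.card : ℝ) - k - 1) * cf x y d s 1 k
        + l ^ 2 * (((s.card : ℝ) - k) * ((s.card : ℝ) - k - 1) / 2) * cf x y d s 0 k)
      ≤ (cf x y d s 1 (k + 1) + l * ((s.card : ℝ) - k - 1) * cf x y d s 0 (k + 1)) ^ 2 := by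
  have h := log_concave (fun i => d i + l * y i) hx hy s (k + 2) hk
  have z1 : (((k + 2 : ℕ) : ℤ)) - 2 = k := by push_cast; ring
  have z2 : (((k + 2 : ℕ) : ℤ)) - 1 = k + 1 := by push_cast; ring
  have z3 : (((k + 2 : ℕ) : ℤ)) = k + 2 := by push_cast; ring
  rw [z1, z2, z3, cf_shift_one, cf_shift_two, cf_zero_indep x y _ d] at h
  push_cast at h
  convert h using 3
  ring

lemma strict_log_concave {x y : ι → ℝ} (d : ι → ℝ) (hx : ∀ i, 0 < x i) (hy : ∀ i, 0 < y i)
    (s : Finset ι) (k : ℕ) (hk : k + 2 ≤ s.card) :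
    cf x y d s 0 k * cf x y d s 0 (k + 2) < cf x y d s 0 (k + 1) ^ 2 := by
  have h := key_family (fun _ => 0) hx hy s k hk 1
  have e1 : ∀ j : ℤ, cf x y (fun _ => 0) s 1 j = 0 := by
    intro j
    have := euler_j x y (fun _ => 0) s 1 j
    simpa using this
  have e2 : cf x y (fun _ => 0) s 2 k = 0 := by
    have := euler_j x y (fun _ => 0) s 2 k
    simpa using this
  rw [e1, e1, e2, cf_zero_indep x y _ d s k, cf_zero_indep x y _ d s (k + 1),
    cf_zero_indep x y _ d s (k + 2)] at h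
  have h0 : 0 < cf x y d s 0 k := cf_zero_pos d hx hy _ _ (by omega) (by omega)
  have h2 : 0 < cf x y d s 0 (k + 2) := cf_zero_pos d hx hy _ _ (by omega) (by omega)
  have hN : (1 : ℝ) ≤ (s.card : ℝ) - k - 1 := by
    have : ((k + 2 : ℕ) : ℝ) ≤ s.card := by exact_mod_cast hk
    push_cast at this; linarith
  generalize cf x y d s 0 k = f0 at *
  generalize cf x y d s 0 (k + 1) = f1 at *
  generalize cf x y d s 0 (k + 2) = f2 at *
  have e3 : (s.card : ℝ) - k = ((s.card : ℝ) - k - 1) + 1 := by ring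
  rw [e3] at h
  simp only [add_sub_cancel_right] at h
  generalize (s.card : ℝ) - k - 1 = N at *
  have h5 : 0 < f0 * f2 := mul_pos h0 h2
  have h6 : N * (N * (f0 * f2) + f0 * f2) ≤ N * (N * f1 ^ 2) := by nlinarith
  have h7 := le_of_mul_le_mul_left h6 (by linarith)
  have h8 : N * (f0 * f2) < N * f1 ^ 2 := by linarith
  exact lt_of_mul_lt_mul_left h8 (by linarith)

/-- The key inequality of Hillion and Johnson. -/
lemma key_ineq {x y : ι → ℝ} (d : ι → ℝ) (hx : ∀ i, 0 < x i) (hy : ∀ i, 0 < y i)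
    (s : Finset ι) (k : ℕ) (hk : k + 2 ≤ s.card) :
    2 * cf x y d s 2 k * (cf x y d s 0 (k + 1) ^ 2 - cf x y d s 0 k * cf x y d s 0 (k + 2))
      ≤ 2 * cf x y d s 1 k * cf x y d s 1 (k + 1) * cf x y d s 0 (k + 1)
        - cf x y d s 1 k ^ 2 * cf x y d s 0 (k + 2)
        - cf x y d s 1 (k + 1) ^ 2 * cf x y d s 0 k := by
  have hD := strict_log_concave d hx hy s k hk
  have h := key_family d hx hy s k hk
  have h0 : 0 < cf x y d s 0 k := cf_zero_pos d hx hy _ _ (by omega) (by omega)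
  have h2 : 0 < cf x y d s 0 (k + 2) := cf_zero_pos d hx hy _ _ (by omega) (by omega)
  have hN : (1 : ℝ) ≤ (s.card : ℝ) - k - 1 := by
    have : ((k + 2 : ℕ) : ℝ) ≤ s.card := by exact_mod_cast hk
    push_cast at this; linarith
  generalize cf x y d s 0 k = f0 at *
  generalize cf x y d s 0 (k + 1) = f1 at *
  generalize cf x y d s 0 (k + 2) = f2 at *
  generalize cf x y d s 1 k = g0 at *
  generalize cf x y d s 1 (k + 1) = g1 at *
  generalize cf x y d s 2 k = c at *
  have e3 : (s.card : ℝ) - k = ((s.card : ℝ) - k - 1) + 1 := by ring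
  rw [e3] at h
  simp only [add_sub_cancel_right] at h
  generalize (s.card : ℝ) - k - 1 = N at *
  have hN0 : 0 < N := by linarith
  have hD0 : 0 < f1 ^ 2 - f0 * f2 := by linarith
  have h' : ∀ l : ℝ, f2 * (2 * c + 2 * l * g0 + l ^ 2 * f0) ≤ (g1 + l * f1) ^ 2 := by
    intro l
    have h3 := h (l / N)
    have e4 : l / N * N = l := by field_simp
    have e5 : (l / N) ^ 2 * ((N + 1) * N / 2) = l ^ 2 / 2 + l ^ 2 / (2 * N) := by
      field_simp
    rw [e4, e5] at h3
    have h6 : 0 ≤ f2 * (l ^ 2 / (2 * N)) * f0 := by positivity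
    nlinarith
  have h7 := h' ((g0 * f2 - g1 * f1) / (f1 ^ 2 - f0 * f2))
  set D := f1 ^ 2 - f0 * f2 with hDdef
  set l := (g0 * f2 - g1 * f1) / D with hl
  have hlD : l * D = g0 * f2 - g1 * f1 := by rw [hl]; field_simp
  have h8 : f2 * (2 * c) ≤ g1 ^ 2 - l * (g0 * f2 - g1 * f1) := by
    have : l ^ 2 * D = l * (g0 * f2 - g1 * f1) := by rw [← hlD]; ring
    rw [hDdef] at this
    nlinarith
  have h9 : f2 * (2 * c) * D ≤ (g1 ^ 2 - l * (g0 * f2 - g1 * f1)) * D :=
    mul_le_mul_of_nonneg_right h8 hD0.le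
  have h10 : (g1 ^ 2 - l * (g0 * f2 - g1 * f1)) * D
      = f2 * (2 * g0 * g1 * f1 - g0 ^ 2 * f2 - g1 ^ 2 * f0) := by
    have : (g1 ^ 2 - l * (g0 * f2 - g1 * f1)) * D
        = g1 ^ 2 * D - (l * D) * (g0 * f2 - g1 * f1) := by ring
    rw [this, hlD, hDdef]; ring
  rw [h10, mul_assoc] at h9
  exact le_of_mul_le_mul_left h9 h2

lemma hasDerivAt_cf (p0 d : ι → ℝ) (t : ℝ) (s : Finset ι) : ∀ j k : ℤ,
    HasDerivAt (fun t => cf (fun i => p0 i + t * d i) (fun i => 1 - (p0 i + t * d i)) d s j k)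
      (((j : ℝ) + 1) *
        (cf (fun i => p0 i + t * d i) (fun i => 1 - (p0 i + t * d i)) d s (j + 1) (k - 1)
          - cf (fun i => p0 i + t * d i) (fun i => 1 - (p0 i + t * d i)) d s (j + 1) k)) t := by
  induction s using Finset.induction_on with
  | empty =>
    intro j k
    simp only [cf_empty]
    refine (hasDerivAt_const t _).congr_deriv ?_
    by_cases h : j + 1 = 0
    · have : (j : ℝ) + 1 = 0 := by exact_mod_cast h
      rw [this]; simp
    · simp [h]
  | insert a s ha ih =>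
    intro j k
    simp only [cf_insert _ _ _ ha]
    have hx : HasDerivAt (fun t : ℝ => p0 a + t * d a) (d a) t := by
      simpa using ((hasDerivAt_id t).mul_const (d a)).const_add (p0 a)
    have hy : HasDerivAt (fun t : ℝ => 1 - (p0 a + t * d a)) (-d a) t := hx.const_sub 1
    have h := ((hy.mul (ih j k)).add (hx.mul (ih j (k - 1)))).add ((ih (j - 1) k).const_mul (d a))
    refine HasDerivAt.congr_deriv h ?_
    have z1 : j - 1 + 1 = j := by ring
    have z2 : j + 1 - 1 = j := by ring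
    rw [z1, z2]
    push_cast; ring

lemma cf_zero_eq_sum (x y ξ : ι → ℝ) (s : Finset ι) : ∀ k : ℕ,
    cf x y ξ s 0 k = ∑ A ∈ powersetCard k s, (∏ i ∈ A, x i) * ∏ i ∈ s \ A, y i := by
  induction s using Finset.induction_on with
  | empty =>
    intro k
    rw [cf_empty]
    cases k with
    | zero => simp
    | succ k =>
      rw [if_neg (by omega), powersetCard_eq_empty.2 (by simp)]; simp
  | insert a s ha ih =>
    intro k
    rw [cf_insert x y ξ ha, cf_neg_left x y ξ s (0 - 1) k (by omega)]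
    have e1 : ∀ (n : ℕ), ∀ A ∈ powersetCard n s,
        (∏ i ∈ A, x i) * ∏ i ∈ insert a s \ A, y i
          = y a * ((∏ i ∈ A, x i) * ∏ i ∈ s \ A, y i) := by
      intro n A hA
      have hAs := (mem_powersetCard.1 hA).1
      have haA : a ∉ A := fun h => ha (hAs h)
      rw [insert_sdiff_of_notMem s haA, prod_insert (fun h => ha (mem_sdiff.1 h).1)]
      ring
    cases k with
    | zero =>
      rw [cf_neg_right x y ξ s 0 (((0 : ℕ) : ℤ) - 1) (by omega), ih 0]
      simp [prod_insert ha]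
    | succ k =>
      have z : (((k + 1 : ℕ) : ℤ)) - 1 = k := by push_cast; ring
      rw [z, ih k, ih (k + 1), powersetCard_succ_insert ha, sum_union, sum_image,
        sum_congr rfl (e1 (k + 1)), ← mul_sum]
      · have e2 : ∀ A ∈ powersetCard k s,
            (∏ i ∈ insert a A, x i) * ∏ i ∈ insert a s \ insert a A, y i
              = x a * ((∏ i ∈ A, x i) * ∏ i ∈ s \ A, y i) := by
          intro A hA
          have hAs := (mem_powersetCard.1 hA).1
          have haA : a ∉ A := fun h => ha (hAs h)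
          rw [prod_insert haA, insert_sdiff_insert, sdiff_insert_of_notMem ha]
          ring
        rw [sum_congr rfl e2, ← mul_sum]; ring
      · intro A hA B hB hAB
        have hAs := (mem_powersetCard.1 hA).1
        have hBs := (mem_powersetCard.1 hB).1
        have haA : a ∉ A := fun h => ha (hAs h)
        have haB : a ∉ B := fun h => ha (hBs h)
        rw [← erase_insert haA, ← erase_insert haB]
        exact congrArg (fun S => S.erase a) hAB
      · rw [disjoint_left]
        intro A hA hA'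
        obtain ⟨B, _, rfl⟩ := mem_image.1 hA'
        exact ha ((mem_powersetCard.1 hA).1 (mem_insert_self a B))

end Pool.Agent.MP_737f38_pr
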