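import Mathlib

namespace Pool.Agent.MP_737f38_pr

/-- Mass at `k` of the sum of independent Bernoulli variables with parameters `p i`. -/
noncomputable def bernoulliSumMass {m : ℕ} (p : Fin m → ℝ) (k : ℕ) : ℝ :=
  ∑ A ∈ Finset.powersetCard k (Finset.univ : Finset (Fin m)), (∏ i ∈ A, p i) * ∏ i ∈ (A)ᶜ, (1 - p i)

/-- Renyi entropy of order `q` (Shannon entropy for `q = 1`) of a mass function on `0, …, m`. -/
noncomputable def renyiEntropy (q : ℝ) (m : ℕ) (P : ℕ → ℝ) : ℝ :=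
  if q = 1 then -∑ k ∈ Finset.range (m + 1), P k * Real.log (P k)
  else 1 / (1 - q) * Real.log (∑ k ∈ Finset.range (m + 1), P k ^ q)

/-- The entropy along the affine path from `p0` to `p1`. -/
noncomputable def pathEntropy (q : ℝ) {m : ℕ} (p0 p1 : Fin m → ℝ) (t : ℝ) : ℝ :=
  renyiEntropy q m (bernoulliSumMass fun i => (1 - t) * p0 i + t * p1 i)

/-- Properties (i) and (ii) of the critical exponent. -/
def IsCriticalExponent (c : ℝ) : Prop :=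
  0 < c ∧
  (∀ q : ℝ, 0 < q → q ≤ c → ∀ m : ℕ, 1 ≤ m → ∀ p0 p1 : Fin m → ℝ,
      (∀ i, p0 i ∈ Set.Icc (0 : ℝ) 1) → (∀ i, p1 i ∈ Set.Icc (0 : ℝ) 1) →
      ConcaveOn ℝ (Set.Icc (0 : ℝ) 1) (pathEntropy q p0 p1)) ∧
  (∀ q : ℝ, c < q → ∃ m : ℕ, 1 ≤ m ∧ ∃ p0 p1 : Fin m → ℝ,
      (∀ i, p0 i ∈ Set.Icc (0 : ℝ) 1) ∧ (∀ i, p1 i ∈ Set.Icc (0 : ℝ) 1) ∧
      ConvexOn ℝ (Set.Icc (0 : ℝ) 1) (pathEntropy q p0 p1) ∧
      ¬ ∃ a b : ℝ, ∀ t ∈ Set.Icc (0 : ℝ) 1, pathEntropy q p0 p1 t = a + b * t)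

end Pool.Agent.MP_737f38_pr
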